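import Mathlib

/-! Punctures of quasi-projective varieties with linear group actions: definitions. -/

set_option autoImplicit false

open MvPolynomial

namespace Pool.Agent.U207.PU

variable {n : ℕ}

/-- The set `X` of nonzero vectors in `ℂⁿ` is (the cone over) a quasi-projective variety in the
projective space: it is stable under multiplication by nonzero scalars, locally closed, and
irreducible, that is its vanishing ideal is prime. -/
structure IsQuasiProjective (X : Set (Fin n → ℂ)) : Prop where
  ne_zero : ∀ x ∈ X, x ≠ 0
  smul_mem : ∀ x ∈ X, ∀ c : ℂ, c ≠ 0 → c • x ∈ X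
  locallyClosed : ∃ A D : Ideal (MvPolynomial (Fin n) ℂ),
    X = {x | x ≠ 0} ∩ (zeroLocus ℂ A \ zeroLocus ℂ D)
  irreducible : (vanishingIdeal ℂ X).IsPrime

/-- `X` is Brody-special: there is a holomorphic map from `ℂ` to `X` (given by entire homogeneous
coordinates without common zeros) with Zariski dense image: the homogeneous polynomials which vanish
on the image vanish on `X`. -/
def IsBrodySpecial (X : Set (Fin n → ℂ)) : Prop :=
  ∃ u : ℂ → Fin n → ℂ, Differentiable ℂ u ∧ (∀ z, u z ∈ X) ∧
    ∀ (P : MvPolynomial (Fin n) ℂ) (d : ℕ), P.IsHomogeneous d → (∀ z, eval (u z) P = 0) →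
      ∀ x ∈ X, eval x P = 0

/-- The closed subset `X ∩ Z` has codimension at least two in `X`: the dimension of every irreducible
component of its Zariski closure is at most the dimension of `X` minus two. (The transcendence degree
of the coordinate ring is the dimension of the cone.) -/
def CodimAtLeastTwo (X Z : Set (Fin n → ℂ)) : Prop :=
  ∀ P ∈ (vanishingIdeal ℂ (X ∩ Z)).minimalPrimes,
    Algebra.trdeg ℂ (MvPolynomial (Fin n) ℂ ⧸ P) + 2 ≤
      Algebra.trdeg ℂ (MvPolynomial (Fin n) ℂ ⧸ vanishingIdeal ℂ X)

/-- The value at `s` of a matrix of polynomials in one variable. -/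
noncomputable def value (M : Matrix (Fin n) (Fin n) (Polynomial ℂ)) (s : ℂ) :
    Matrix (Fin n) (Fin n) ℂ :=
  (Polynomial.evalRingHom s).mapMatrix M

/-- The matrix `M` of polynomials in one variable `s` is a rational curve in the group of linear
automorphisms of `X`, through the identity: one of its values is the identity, and all its
invertible values map `X` onto `X`. -/
structure IsFamily (X : Set (Fin n → ℂ)) (M : Matrix (Fin n) (Fin n) (Polynomial ℂ)) : Prop where
  one : ∃ s, value M s = 1
  mem_iff : ∀ s, (value M s).det ≠ 0 → ∀ x, (value M s).mulVec x ∈ X ↔ x ∈ X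

/-- The transformations generated by the invertible values of the families in `G`. -/
def transformations (G : Set (Matrix (Fin n) (Fin n) (Polynomial ℂ))) :
    Submonoid (Matrix (Fin n) (Fin n) ℂ) :=
  Submonoid.closure {A | ∃ M ∈ G, ∃ s, value M s = A ∧ A.det ≠ 0}

/-- The largest subset of `Z` which is stable under the transformations. -/
def invariantPart (G : Set (Matrix (Fin n) (Fin n) (Polynomial ℂ))) (Z : Set (Fin n → ℂ)) :
    Set (Fin n → ℂ) :=
  {x | ∀ A ∈ transformations G, A.mulVec x ∈ Z}

end Pool.Agent.U207.PU
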