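import Pool.Agent.U207.PU.Defs

/-! Punctures of quasi-projective varieties with linear group actions: proof. -/

set_option autoImplicit false

open MvPolynomial

namespace Pool.Agent.U207.PU

variable {n : ℕ}

/-- composition with a linear map -/
noncomputable def comp (A : Matrix (Fin n) (Fin n) ℂ) :
    MvPolynomial (Fin n) ℂ →ₐ[ℂ] MvPolynomial (Fin n) ℂ :=
  aeval fun i => ∑ j, C (A i j) * X j

theorem eval_comp (A : Matrix (Fin n) (Fin n) ℂ) (P : MvPolynomial (Fin n) ℂ) (x : Fin n → ℂ) :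
    eval x (comp A P) = eval (A.mulVec x) P := by
  have h1 : (eval x : MvPolynomial (Fin n) ℂ →+* ℂ).comp (comp A : MvPolynomial (Fin n) ℂ →+* _) =
      eval (A.mulVec x) := by
    apply MvPolynomial.ringHom_ext
    · intro a
      simp [comp]
    · intro i
      simp [comp, Matrix.mulVec, dotProduct]
  exact congrArg (fun f => f P) h1

theorem comp_homog (A : Matrix (Fin n) (Fin n) ℂ) {P : MvPolynomial (Fin n) ℂ} {d : ℕ}
    (hP : P.IsHomogeneous d) : (comp A P).IsHomogeneous d := by
  have h := hP.aeval (fun i => ∑ j, C (A i j) * X j) (n := 1) (fun i => by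
    apply IsHomogeneous.sum
    intro j _
    have h1 := (isHomogeneous_C (Fin n) (A i j)).mul (isHomogeneous_X ℂ j)
    simpa using h1)
  rw [one_mul] at h
  exact h

theorem det_value (M : Matrix (Fin n) (Fin n) (Polynomial ℂ)) (s : ℂ) :
    (value M s).det = M.det.eval s := by
  rw [value, ← RingHom.map_det]
  rfl

theorem eval_smul_hom {P : MvPolynomial (Fin n) ℂ} {e : ℕ} (hP : P.IsHomogeneous e) (c : ℂ)
    (x : Fin n → ℂ) : eval (c • x) P = c ^ e * eval x P := by
  rw [eval_eq', eval_eq', Finset.mul_sum]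
  refine Finset.sum_congr rfl fun d hd => ?_
  have h1 : ∑ i, d i = e := by
    have h2 := hP (mem_support_iff.1 hd)
    rw [Finsupp.weight_apply, Finsupp.sum_fintype _ _ (fun i => by simp)] at h2
    simpa using h2
  simp only [Pi.smul_apply, smul_eq_mul, mul_pow, Finset.prod_mul_distrib]
  rw [Finset.prod_pow_eq_pow_sum, h1]
  ring

/-- the homomorphism of the parametrization -/
noncomputable def Phi (M : Matrix (Fin n) (Fin n) (Polynomial ℂ))
    (P : Ideal (MvPolynomial (Fin n) ℂ)) :
    MvPolynomial (Fin n) ℂ →ₐ[ℂ] Polynomial (MvPolynomial (Fin n) ℂ ⧸ P) :=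
  aeval fun i => ∑ j, (M.adjugate i j).map (algebraMap ℂ (MvPolynomial (Fin n) ℂ ⧸ P)) *
    Polynomial.C (Ideal.Quotient.mk P (X j))

theorem Phi_eval (M : Matrix (Fin n) (Fin n) (Polynomial ℂ)) {P : Ideal (MvPolynomial (Fin n) ℂ)}
    {h : MvPolynomial (Fin n) ℂ} (hh : Phi M P h = 0) {y : Fin n → ℂ} (hy : ∀ p ∈ P, eval y p = 0)
    (s : ℂ) : eval ((value M s).adjugate.mulVec y) h = 0 := by
  let ev : Polynomial (MvPolynomial (Fin n) ℂ ⧸ P) →+* ℂ :=
    Polynomial.eval₂RingHom (Ideal.Quotient.lift P (eval y) hy) s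
  have h1 : ev.comp (Phi M P : MvPolynomial (Fin n) ℂ →+* _) =
      eval ((value M s).adjugate.mulVec y) := by
    apply MvPolynomial.ringHom_ext
    · intro a
      have h2 : (Phi M P) (C a) = Polynomial.C (Ideal.Quotient.mk P (C a)) := by
        have h3 := (Phi M P).commutes a
        exact h3
      rw [RingHom.comp_apply, eval_C]
      change ev (Phi M P (C a)) = a
      rw [h2]
      simp [ev]
    · intro i
      rw [RingHom.comp_apply, eval_X]
      change ev (Phi M P (X i)) = _
      have hadj : (value M s).adjugate = (Polynomial.evalRingHom s).mapMatrix M.adjugate := by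
        rw [value, RingHom.map_adjugate]
      rw [Phi, aeval_X, map_sum, hadj, Matrix.mulVec, dotProduct]
      refine Finset.sum_congr rfl fun j _ => ?_
      rw [map_mul]
      congr 1
      · simp only [ev, Polynomial.coe_eval₂RingHom, Polynomial.eval₂_map]
        have h4 : (Ideal.Quotient.lift P (eval y) hy).comp
            (algebraMap ℂ (MvPolynomial (Fin n) ℂ ⧸ P)) = RingHom.id ℂ := by
          apply RingHom.ext
          intro a
          change Ideal.Quotient.lift P (eval y) hy (Ideal.Quotient.mk P (C a)) = a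
          rw [Ideal.Quotient.lift_mk, eval_C]
        rw [h4]
        rfl
      · simp [ev]
  have h5 := congrArg (fun f => f h) h1
  rw [← h5]
  change ev (Phi M P h) = 0
  rw [hh, map_zero]

theorem exists_phi {P I : Ideal (MvPolynomial (Fin n) ℂ)} [P.IsPrime] [I.IsPrime]
    (M : Matrix (Fin n) (Fin n) (Polynomial ℂ))
    (hc : Algebra.trdeg ℂ (MvPolynomial (Fin n) ℂ ⧸ P) + 2 ≤
      Algebra.trdeg ℂ (MvPolynomial (Fin n) ℂ ⧸ I)) :
    ∃ h : MvPolynomial (Fin n) ℂ, h ∉ I ∧ Phi M P h = 0 := by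
  by_contra hcon
  push Not at hcon
  obtain ⟨s, hs⟩ := exists_isTranscendenceBasis ℂ (MvPolynomial (Fin n) ℂ ⧸ I)
  have hlift : ∀ b : s, ∃ B : MvPolynomial (Fin n) ℂ, Ideal.Quotient.mk I B = b :=
    fun b => Ideal.Quotient.mk_surjective _
  choose B hB using hlift
  have hind : AlgebraicIndependent ℂ (fun b : s => Phi M P (B b)) := by
    rw [algebraicIndependent_iff]
    intro p hp
    have h1 : Phi M P (aeval B p) = 0 := by
      rw [← hp]
      have h0 : (Phi M P).comp (aeval B) = aeval (fun b => Phi M P (B b)) := by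
        apply MvPolynomial.algHom_ext
        intro b
        rw [AlgHom.comp_apply, aeval_X, aeval_X]
      exact DFunLike.congr_fun h0 p
    have h2 : aeval B p ∈ I := by
      by_contra h3
      exact hcon _ h3 h1
    have h4 := hs.1
    rw [algebraicIndependent_iff] at h4
    apply h4
    have h5 : aeval (fun b : s => (b : MvPolynomial (Fin n) ℂ ⧸ I)) p =
        Ideal.Quotient.mkₐ ℂ I (aeval B p) := by
      have h6 := comp_aeval_apply B (Ideal.Quotient.mkₐ ℂ I) p
      rw [h6]
      congr 2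
      funext b
      exact (hB b).symm
    rw [h5]
    exact Ideal.Quotient.eq_zero_iff_mem.2 h2
  have h1 := hind.cardinalMk_le_trdeg
  have h2 : Algebra.trdeg ℂ (MvPolynomial (Fin n) ℂ ⧸ P) +
      Algebra.trdeg (MvPolynomial (Fin n) ℂ ⧸ P) (Polynomial (MvPolynomial (Fin n) ℂ ⧸ P)) =
      Algebra.trdeg ℂ (Polynomial (MvPolynomial (Fin n) ℂ ⧸ P)) := trdeg_add_eq _ _
  rw [Polynomial.trdeg_of_isDomain] at h2
  rw [← h2, hs.cardinalMk_eq_trdeg] at h1
  obtain ⟨k, hk⟩ := Cardinal.lt_aleph0.1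
    (trdeg_lt_aleph0_of_finiteType (R := ℂ) (S := MvPolynomial (Fin n) ℂ ⧸ P))
  have h3 := hc.trans h1
  rw [hk] at h3
  have h4 : k + 2 ≤ k + 1 := by exact_mod_cast h3
  omega

/-- the points which are mapped to `Z` by the transformations of a family are in a hypersurface -/
theorem exists_hyp {X Z : Set (Fin n → ℂ)} (hX : IsQuasiProjective X)
    (hZ : ∀ x ∈ Z, ∀ c : ℂ, c ≠ 0 → c • x ∈ Z) (hc : CodimAtLeastTwo X Z)
    {M : Matrix (Fin n) (Fin n) (Polynomial ℂ)} (hM : IsFamily X M) :
    ∃ (P : MvPolynomial (Fin n) ℂ) (d : ℕ), P.IsHomogeneous d ∧ P ∉ vanishingIdeal ℂ X ∧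
      ∀ x ∈ X, ∀ s, (value M s).det ≠ 0 → (value M s).mulVec x ∈ Z → eval x P = 0 := by
  classical
  have hIp := hX.irreducible
  have hex : ∀ P : (vanishingIdeal ℂ (X ∩ Z)).minimalPrimes,
      ∃ h : MvPolynomial (Fin n) ℂ, h ∉ vanishingIdeal ℂ X ∧ Phi M P.1 h = 0 := by
    intro P
    have := P.2.1.1
    exact exists_phi M (hc P.1 P.2)
  choose h hhI hh using hex
  have hfin := (vanishingIdeal ℂ (X ∩ Z)).finite_minimalPrimes_of_isNoetherianRing
  have : Finite (vanishingIdeal ℂ (X ∩ Z)).minimalPrimes := hfin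
  let := Fintype.ofFinite (vanishingIdeal ℂ (X ∩ Z)).minimalPrimes
  obtain ⟨H, hH⟩ : ∃ H, H = ∏ P, h P := ⟨_, rfl⟩
  have hHI : H ∉ vanishingIdeal ℂ X := by
    rw [hH, Ideal.IsPrime.prod_mem_iff]
    push Not
    exact fun P _ => hhI P
  have hHT : ∀ x ∈ X, ∀ s, (value M s).det ≠ 0 → (value M s).mulVec x ∈ Z → eval x H = 0 := by
    intro x hx s hs hxZ
    obtain ⟨δ, hδ⟩ : ∃ δ, δ = (value M s).det := ⟨_, rfl⟩
    have hδ0 : δ ≠ 0 := by rw [hδ]; exact hs
    obtain ⟨y, hy⟩ : ∃ y, y = (value M s).mulVec (δ⁻¹ • x) := ⟨_, rfl⟩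
    have hyZ : y ∈ Z := by
      rw [hy, Matrix.mulVec_smul]
      exact hZ _ hxZ _ (inv_ne_zero hδ0)
    have hyX : y ∈ X := by
      rw [hy, hM.mem_iff s hs]
      exact hX.smul_mem x hx _ (inv_ne_zero hδ0)
    obtain ⟨P, hP, hPy⟩ := Ideal.exists_minimalPrimes_le (I := vanishingIdeal ℂ (X ∩ Z))
      (J := vanishingIdeal ℂ {y})
      (vanishingIdeal_anti_mono (Set.singleton_subset_iff.2 ⟨hyX, hyZ⟩))
    have h1 := Phi_eval M (hh ⟨P, hP⟩) (y := y) (fun p hp => by
      have h2 := (mem_vanishingIdeal_singleton_iff y p).1 (hPy hp)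
      rwa [aeval_eq_eval] at h2) s
    have h3 : (value M s).adjugate.mulVec y = x := by
      rw [hy, Matrix.mulVec_mulVec, Matrix.adjugate_mul, ← hδ, Matrix.smul_mulVec,
        Matrix.one_mulVec, smul_smul, mul_inv_cancel₀ hδ0, one_smul]
    rw [h3] at h1
    rw [hH, map_prod]
    exact Finset.prod_eq_zero (Finset.mem_univ ⟨P, hP⟩) h1
  -- homogeneous components
  obtain ⟨d, hd⟩ : ∃ d, homogeneousComponent d H ∉ vanishingIdeal ℂ X := by
    by_contra hcon
    push Not at hcon
    apply hHI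
    rw [← sum_homogeneousComponent H]
    exact Ideal.sum_mem _ fun d _ => hcon d
  refine ⟨homogeneousComponent d H, d, homogeneousComponent_isHomogeneous d H, hd, ?_⟩
  intro x hx s hs hxZ
  -- the polynomial in the scalar
  have hpol : ∀ c : ℂ, c ≠ 0 → ∑ i ∈ Finset.range (H.totalDegree + 1),
      c ^ i * eval x (homogeneousComponent i H) = 0 := by
    intro c hc0
    have h1 : eval (c • x) H = 0 := by
      refine hHT _ (hX.smul_mem x hx c hc0) s hs ?_
      rw [Matrix.mulVec_smul]
      exact hZ _ hxZ c hc0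
    rw [← h1]
    conv_rhs => rw [← sum_homogeneousComponent H, map_sum]
    refine Finset.sum_congr rfl fun i _ => ?_
    exact (eval_smul_hom (homogeneousComponent_isHomogeneous i H) c x).symm
  by_cases hdt : d < H.totalDegree + 1
  · have hq : (∑ i ∈ Finset.range (H.totalDegree + 1),
        Polynomial.C (eval x (homogeneousComponent i H)) * Polynomial.X ^ i) = 0 := by
      refine Polynomial.eq_zero_of_infinite_isRoot _ (Set.Infinite.mono (s := {c : ℂ | c ≠ 0}) ?_ ?_)
      · intro c hc0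
        rw [Set.mem_ofPred_eq, Polynomial.IsRoot, Polynomial.eval_finsetSum, ← hpol c hc0]
        refine Finset.sum_congr rfl fun i _ => ?_
        rw [Polynomial.eval_mul, Polynomial.eval_C, Polynomial.eval_pow, Polynomial.eval_X,
          mul_comm]
      · exact (Set.finite_singleton (0 : ℂ)).infinite_compl
    have h2 := congrArg (fun q => Polynomial.coeff q d) hq
    simp only [Polynomial.finsetSum_coeff, Polynomial.coeff_C_mul_X_pow, Polynomial.coeff_zero]
      at h2
    rw [Finset.sum_ite_eq, if_pos (Finset.mem_range.2 hdt)] at h2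
    exact h2
  · rw [homogeneousComponent_eq_zero d H (by omega), map_zero]

theorem entire_zeros (f : ℂ → ℂ) (hf : Differentiable ℂ f) (x : ℂ) (hx : f x ≠ 0) :
    {z | f z = 0}.Countable := by
  have h1 : AnalyticOnNhd ℂ f Set.univ := fun z _ => hf.analyticAt z
  have hs : {z | f z = 0}ᶜ ∈ Filter.codiscrete ℂ := h1.preimage_zero_mem_codiscrete hx
  rw [compl_mem_codiscrete_iff] at hs
  have hd : DiscreteTopology {z | f z = 0} := hs.2.to_subtype
  exact (Set.countable_coe_iff).1 (TopologicalSpace.separableSpace_iff_countable.1 inferInstance)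

/-- there are points of `X` outside of `Z` -/
theorem exists_notMem {X Z : Set (Fin n → ℂ)} (hX : IsQuasiProjective X)
    (hc : CodimAtLeastTwo X Z) : ∃ x ∈ X, x ∉ Z := by
  by_contra hcon
  push Not at hcon
  have hIp := hX.irreducible
  have h1 : X ∩ Z = X := Set.inter_eq_left.2 hcon
  have h2 := hc (vanishingIdeal ℂ X) (by
    rw [h1, Ideal.minimalPrimes_eq_subsingleton_self]
    rfl)
  obtain ⟨k, hk⟩ := Cardinal.lt_aleph0.1
    (trdeg_lt_aleph0_of_finiteType (R := ℂ) (S := MvPolynomial (Fin n) ℂ ⧸ vanishingIdeal ℂ X))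
  rw [hk] at h2
  have h4 : k + 2 ≤ k := by exact_mod_cast h2
  omega

/-- polynomials which vanish on a nonempty open subset -/
theorem vanish_of_open {X : Set (Fin n → ℂ)} (hX : IsQuasiProjective X)
    {J : Ideal (MvPolynomial (Fin n) ℂ)} (hJ : ∃ x ∈ X, x ∉ zeroLocus ℂ J)
    {Y : Set (Fin n → ℂ)} (hY : Y ⊆ zeroLocus ℂ J) {P : MvPolynomial (Fin n) ℂ}
    (hP : ∀ x ∈ X \ Y, eval x P = 0) : P ∈ vanishingIdeal ℂ X := by
  obtain ⟨x₀, hx₀, hx₀J⟩ := hJ
  rw [mem_zeroLocus_iff] at hx₀J
  push Not at hx₀J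
  obtain ⟨g, hg, hgx⟩ := hx₀J
  have hIp := hX.irreducible
  have h1 : P * g ∈ vanishingIdeal ℂ X := by
    rw [mem_vanishingIdeal_iff]
    intro x hx
    rw [map_mul, aeval_eq_eval]
    by_cases hxY : x ∈ Y
    · have h2 := (mem_zeroLocus_iff.1 (hY hxY)) g hg
      rw [aeval_eq_eval] at h2
      rw [h2, mul_zero]
    · rw [hP x ⟨hx, hxY⟩, zero_mul]
  rcases hIp.mem_or_mem h1 with h2 | h2
  · exact h2
  · exact absurd ((mem_vanishingIdeal_iff.1 h2) x₀ hx₀) hgx

theorem differentiable_eval {u : ℂ → Fin n → ℂ} (hu : Differentiable ℂ u)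
    (P : MvPolynomial (Fin n) ℂ) : Differentiable ℂ fun z => eval (u z) P := by
  rw [differentiable_pi] at hu
  induction P using MvPolynomial.induction_on with
  | C a => simp only [eval_C]; exact differentiable_const a
  | add p q hp hq => simp only [map_add]; exact hp.add hq
  | mul_X p i hp => simp only [map_mul, eval_X]; exact hp.mul (hu i)

/-- **One family.** -/
theorem step {X Z : Set (Fin n → ℂ)} (hX : IsQuasiProjective X)
    (hZ : ∀ x ∈ Z, ∀ c : ℂ, c ≠ 0 → c • x ∈ Z) (hc : CodimAtLeastTwo X Z)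
    {M : Matrix (Fin n) (Fin n) (Polynomial ℂ)} (hM : IsFamily X M)
    {J : Ideal (MvPolynomial (Fin n) ℂ)} (hJ : zeroLocus ℂ J ⊆ Z) {Y : Set (Fin n → ℂ)}
    (hY : ∀ x, x ∈ Y ↔ ∀ s, (value M s).det ≠ 0 → (value M s).mulVec x ∈ zeroLocus ℂ J)
    (hb : IsBrodySpecial (X \ Y)) : IsBrodySpecial (X \ zeroLocus ℂ J) := by
  classical
  obtain ⟨s₁, hs₁⟩ := hM.one
  have hYJ : Y ⊆ zeroLocus ℂ J := by
    intro x hx
    have h1 := (hY x).1 hx s₁ (by rw [hs₁, Matrix.det_one]; exact one_ne_zero)
    rwa [hs₁, Matrix.one_mulVec] at h1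
  have hJX : ∃ x ∈ X, x ∉ zeroLocus ℂ J := by
    obtain ⟨x, hx, hxZ⟩ := exists_notMem hX hc
    exact ⟨x, hx, fun h => hxZ (hJ h)⟩
  obtain ⟨u, hu, huX, hud⟩ := hb
  obtain ⟨P, d, hPd, hPI, hP⟩ := exists_hyp hX hZ hc hM
  -- the points of the curve in the hypersurface
  obtain ⟨z₀, hz₀⟩ : ∃ z₀, eval (u z₀) P ≠ 0 := by
    by_contra hcon
    push Not at hcon
    exact hPI (vanish_of_open hX hJX hYJ (hud P d hPd hcon))
  have hcount := entire_zeros (fun z => eval (u z) P) (differentiable_eval hu P) z₀ hz₀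
  -- the polynomials in `s`
  have hbad : ∀ z : ℂ, {s : ℂ | (value M s).mulVec (u z) ∈ zeroLocus ℂ J}.Finite := by
    intro z
    have h1 : ¬ u z ∈ Y := (huX z).2
    rw [hY] at h1
    push Not at h1
    obtain ⟨s₀, -, h2⟩ := h1
    rw [mem_zeroLocus_iff] at h2
    push Not at h2
    obtain ⟨g, hg, hg0⟩ := h2
    rw [aeval_eq_eval] at hg0
    obtain ⟨q, hq⟩ : ∃ q : Polynomial ℂ,
      q = aeval (fun i => ∑ j, M i j * Polynomial.C (u z j)) g := ⟨_, rfl⟩
    have hqe : ∀ s, q.eval s = eval ((value M s).mulVec (u z)) g := by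
      intro s
      have h3 : (Polynomial.evalRingHom s).comp
          (aeval (fun i => ∑ j, M i j * Polynomial.C (u z j)) :
            MvPolynomial (Fin n) ℂ →ₐ[ℂ] Polynomial ℂ).toRingHom =
          eval ((value M s).mulVec (u z)) := by
        apply MvPolynomial.ringHom_ext
        · intro a
          simp
        · intro i
          simp [value, Matrix.mulVec, dotProduct, Polynomial.eval_finsetSum]
      rw [hq]
      exact congrArg (fun f => f g) h3
    have hq0 : q ≠ 0 := by
      rintro h0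
      apply hg0
      rw [← hqe, h0, Polynomial.eval_zero]
    refine (q.roots.toFinset.finite_toSet).subset ?_
    intro s hs
    have h4 := (mem_zeroLocus_iff.1 hs) g hg
    rw [aeval_eq_eval, ← hqe] at h4
    rw [Finset.mem_coe, Multiset.mem_toFinset, Polynomial.mem_roots hq0]
    exact h4
  have hdet : {s : ℂ | (value M s).det = 0}.Finite := by
    have h0 : M.det ≠ 0 := by
      intro h0
      have h1 := det_value M s₁
      rw [hs₁, Matrix.det_one, h0, Polynomial.eval_zero] at h1
      exact one_ne_zero h1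
    refine (M.det.roots.toFinset.finite_toSet).subset ?_
    intro s hs
    rw [Finset.mem_coe, Multiset.mem_toFinset, Polynomial.mem_roots h0, Polynomial.IsRoot,
      ← det_value]
    exact hs
  have hcb : (⋃ z ∈ {z | eval (u z) P = 0},
      {s : ℂ | (value M s).mulVec (u z) ∈ zeroLocus ℂ J}).Countable :=
    hcount.biUnion fun z _ => (hbad z).countable
  obtain ⟨s, hs⟩ := ((hdet.countable.union hcb).dense_compl ℂ).nonempty
  rw [Set.mem_compl_iff, Set.mem_union, not_or] at hs
  obtain ⟨hs1, hs2⟩ := hs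
  have hs1' : (value M s).det ≠ 0 := hs1
  refine ⟨fun z => (value M s).mulVec (u z), ?_, fun z => ⟨?_, ?_⟩, ?_⟩
  · rw [differentiable_pi] at hu ⊢
    intro i
    simp only [Matrix.mulVec, dotProduct]
    exact Differentiable.fun_sum fun j _ => (hu j).const_mul _
  · exact (hM.mem_iff s hs1' _).2 (huX z).1
  · intro hz
    by_cases hPz : eval (u z) P = 0
    · exact hs2 (Set.mem_biUnion hPz hz)
    · exact hPz (hP (u z) (huX z).1 s hs1' (hJ hz))
  · intro Q e hQ hQz x hx
    have h1 : ∀ z, eval (u z) (comp (value M s) Q) = 0 := fun z => by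
      rw [eval_comp]
      exact hQz z
    have h2 := vanish_of_open hX hJX hYJ (hud _ e (comp_homog _ hQ) h1)
    obtain ⟨x', hx'⟩ : ∃ x', x' = (value M s)⁻¹.mulVec x := ⟨_, rfl⟩
    have h3 : (value M s).mulVec x' = x := by
      rw [hx', Matrix.mulVec_mulVec, Matrix.mul_nonsing_inv _ (Ne.isUnit hs1'),
        Matrix.one_mulVec]
    have h4 : x' ∈ X := by
      rw [← hM.mem_iff s hs1', h3]
      exact hx.1
    have h5 := (mem_vanishingIdeal_iff.1 h2) x' h4
    rwa [aeval_eq_eval, eval_comp, h3] at h5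

/-- **Main theorem.** -/
theorem main {X : Set (Fin n → ℂ)} (hX : IsQuasiProjective X)
    {G : Set (Matrix (Fin n) (Fin n) (Polynomial ℂ))} (hG : ∀ M ∈ G, IsFamily X M)
    {J₀ : Ideal (MvPolynomial (Fin n) ℂ)}
    (hZ : ∀ x ∈ zeroLocus ℂ J₀, ∀ c : ℂ, c ≠ 0 → c • x ∈ zeroLocus ℂ J₀)
    (hc : CodimAtLeastTwo X (zeroLocus ℂ J₀))
    (hb : IsBrodySpecial (X \ invariantPart G (zeroLocus ℂ J₀))) :
    IsBrodySpecial (X \ zeroLocus ℂ J₀) := by
  classical
  suffices H : ∀ J : Ideal (MvPolynomial (Fin n) ℂ), J₀ ≤ J →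
      invariantPart G (zeroLocus ℂ J₀) ⊆ zeroLocus ℂ J → IsBrodySpecial (X \ zeroLocus ℂ J) by
    refine H J₀ le_rfl fun x hx => ?_
    have h1 := hx 1 (Submonoid.one_mem _)
    rwa [Matrix.one_mulVec] at h1
  intro J
  induction J using WellFoundedGT.induction with
  | ind J ih =>
    intro hJ hinv
    have hJZ : zeroLocus ℂ J ⊆ zeroLocus ℂ J₀ := zeroLocus_anti_mono hJ
    by_cases hst : ∀ M ∈ G, ∀ s, (value M s).det ≠ 0 → ∀ g ∈ J, comp (value M s) g ∈ J
    · have h1 : zeroLocus ℂ J = invariantPart G (zeroLocus ℂ J₀) := by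
        refine Set.Subset.antisymm (fun x hx A hA => hJZ ?_) hinv
        have h2 : ∀ A ∈ transformations G, ∀ x ∈ zeroLocus ℂ J, A.mulVec x ∈ zeroLocus ℂ J := by
          intro A hA
          induction hA using Submonoid.closure_induction with
          | mem A hA =>
            obtain ⟨M, hM, s, rfl, hs⟩ := hA
            intro x hx
            rw [mem_zeroLocus_iff]
            intro g hg
            have h3 := (mem_zeroLocus_iff.1 hx) _ (hst M hM s hs g hg)
            rw [aeval_eq_eval] at h3 ⊢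
            rwa [eval_comp] at h3
          | one => intro x hx; rwa [Matrix.one_mulVec]
          | mul A B _ _ hA hB =>
            intro x hx
            rw [← Matrix.mulVec_mulVec]
            exact hA _ (hB x hx)
        exact h2 A hA x hx
      rw [h1]
      exact hb
    · push Not at hst
      obtain ⟨M, hM, s₁, hs₁, g₁, hg₁, hg₁'⟩ := hst
      obtain ⟨T, hT⟩ : ∃ T : Set (MvPolynomial (Fin n) ℂ),
        T = {g' | ∃ s, (value M s).det ≠ 0 ∧ ∃ g ∈ J, comp (value M s) g = g'} := ⟨_, rfl⟩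
      have hlt : J < J ⊔ Ideal.span T := by
        refine lt_of_le_of_ne le_sup_left fun h0 => hg₁' ?_
        rw [h0]
        refine (le_sup_right : Ideal.span T ≤ _) (Ideal.subset_span ?_)
        rw [hT]
        exact ⟨s₁, hs₁, g₁, hg₁, rfl⟩
      have hmem : ∀ x, x ∈ zeroLocus ℂ (J ⊔ Ideal.span T) ↔
          ∀ s, (value M s).det ≠ 0 → (value M s).mulVec x ∈ zeroLocus ℂ J := by
        intro x
        constructor
        · intro hx s hs
          rw [mem_zeroLocus_iff]
          intro g hg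
          have h1 := (mem_zeroLocus_iff.1 hx) (comp (value M s) g)
            ((le_sup_right : Ideal.span T ≤ _) (Ideal.subset_span (by
              rw [hT]
              exact ⟨s, hs, g, hg, rfl⟩)))
          rw [aeval_eq_eval] at h1 ⊢
          rwa [eval_comp] at h1
        · intro hx
          obtain ⟨s₀, hs₀⟩ := (hG M hM).one
          have h1 := hx s₀ (by rw [hs₀, Matrix.det_one]; exact one_ne_zero)
          rw [hs₀, Matrix.one_mulVec] at h1
          have h2 : J ⊔ Ideal.span T ≤ vanishingIdeal ℂ {x} := by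
            rw [sup_le_iff, Ideal.span_le]
            refine ⟨fun g hg => (mem_vanishingIdeal_singleton_iff x g).2
              ((mem_zeroLocus_iff.1 h1) g hg), ?_⟩
            rw [hT]
            rintro _ ⟨s, hs, g, hg, rfl⟩
            refine (mem_vanishingIdeal_singleton_iff x _).2 ?_
            have h3 := (mem_zeroLocus_iff.1 (hx s hs)) g hg
            rw [aeval_eq_eval] at h3 ⊢
            rwa [eval_comp]
          rw [mem_zeroLocus_iff]
          intro p hp
          exact (mem_vanishingIdeal_singleton_iff x p).1 (h2 hp)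
      have hb' := ih (J ⊔ Ideal.span T) hlt (hJ.trans le_sup_left) (fun x hx => by
        rw [hmem]
        intro s hs
        apply hinv
        intro A hA
        rw [Matrix.mulVec_mulVec]
        exact hx _ (Submonoid.mul_mem _ hA (Submonoid.subset_closure ⟨M, hM, s, rfl, hs⟩)))
      exact step hX hZ hc (hG M hM) hJZ hmem hb'

end Pool.Agent.U207.PU
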